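import Mathlib
import Pool.Agent.H917R2.BP.Stm

/-!
Task cst of project BP (MP_68d413_an): a central state extending the trace (helper722).
-/

set_option autoImplicit false

open scoped ComplexOrder InnerProductSpace ComplexConjugate Topology
open Filter

noncomputable section

namespace H722.BPc

open H759R2.Kad H710R2.DP H917R2.Tr H917R2.BP

variable {K : Type} [NormedAddCommGroup K] [InnerProductSpace ℂ K] [CompleteSpace K]

/-- states which are invariant under the unitaries of `N` -/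
structure Gd (N : VonNeumannAlgebra K) (φ : BH K →ₗ[ℂ] ℂ) : Prop where
  bd : ∀ x, ‖φ x‖ ≤ ‖x‖
  one : φ 1 = 1
  posr : ∀ x, 0 ≤ (φ (star x * x)).re
  posi : ∀ x, (φ (star x * x)).im = 0
  inv : ∀ u ∈ N, star u * u = 1 → u * star u = 1 → ∀ x, φ (star u * x * u) = φ x

/-- limits along ultrafilters -/
theorem exists_lim {I : Type} (U : Ultrafilter I) (φ : I → (BH K →ₗ[ℂ] ℂ))
    (hb : ∀ i x, ‖φ i x‖ ≤ ‖x‖) :
    ∃ ψ : BH K →ₗ[ℂ] ℂ, (∀ x, ‖ψ x‖ ≤ ‖x‖) ∧ ∀ x, Tendsto (fun i => φ i x) U (𝓝 (ψ x)) := by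
  have h1 : ∀ x : BH K, ∃ c ∈ Metric.closedBall (0 : ℂ) ‖x‖,
      Tendsto (fun i => φ i x) U (𝓝 c) := by
    intro x
    have hc : IsCompact (Metric.closedBall (0 : ℂ) ‖x‖) := isCompact_closedBall _ _
    have h2 := hc.ultrafilter_le_nhds (U.map (fun i => φ i x)) (by
      rw [le_principal_iff]
      have h3 : ∀ᶠ i in (U : Filter I), φ i x ∈ Metric.closedBall (0 : ℂ) ‖x‖ :=
        Filter.Eventually.of_forall fun i => by
          simpa [Metric.mem_closedBall, dist_zero_right] using hb i x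
      exact h3)
    obtain ⟨c, hc1, hc2⟩ := h2
    exact ⟨c, hc1, hc2⟩
  choose c hc ht using h1
  refine ⟨{ toFun := c, map_add' := ?_, map_smul' := ?_ }, ?_, ht⟩
  · intro x y
    have h2 := (ht x).add (ht y)
    have h3 : Tendsto (fun i => φ i (x + y)) U (𝓝 (c x + c y)) := by
      refine h2.congr fun i => ?_
      rw [map_add]
    exact tendsto_nhds_unique (ht (x + y)) h3
  · intro a x
    have h2 := (ht x).const_mul a
    have h3 : Tendsto (fun i => φ i (a • x)) U (𝓝 (a * c x)) := by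
      refine h2.congr fun i => ?_
      rw [map_smul, smul_eq_mul]
    exact tendsto_nhds_unique (ht (a • x)) h3
  · intro x
    have := hc x
    simpa [Metric.mem_closedBall, dist_zero_right] using this

/-- limits of good states are good -/
theorem Gd.lim {N : VonNeumannAlgebra K} {I : Type} (U : Ultrafilter I)
    (φ : I → (BH K →ₗ[ℂ] ℂ)) (ψ : BH K →ₗ[ℂ] ℂ) (hg : ∀ i, Gd N (φ i))
    (ht : ∀ x, Tendsto (fun i => φ i x) U (𝓝 (ψ x))) (hb : ∀ x, ‖ψ x‖ ≤ ‖x‖) : Gd N ψ := by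
  refine ⟨hb, ?_, fun x => ?_, fun x => ?_, fun u hu h1 h2 x => ?_⟩
  · have h1 : Tendsto (fun i => φ i 1) U (𝓝 1) := by
      simp only [fun i => (hg i).one]
      exact tendsto_const_nhds
    exact tendsto_nhds_unique (ht 1) h1
  · have h1 := (Complex.continuous_re.tendsto _).comp (ht (star x * x))
    exact ge_of_tendsto' h1 fun i => (hg i).posr x
  · have h1 := (Complex.continuous_im.tendsto _).comp (ht (star x * x))
    have h2 : Tendsto (Complex.im ∘ fun i => φ i (star x * x)) U (𝓝 0) := by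
      refine tendsto_const_nhds.congr fun i => ?_
      exact ((hg i).posi x).symm
    exact tendsto_nhds_unique h1 h2
  · have h3 : Tendsto (fun i => φ i (star u * x * u)) U (𝓝 (ψ x)) := by
      refine (ht x).congr fun i => ?_
      rw [(hg i).inv u hu h1 h2 x]
    exact tendsto_nhds_unique (ht _) h3

section trace

variable {N : VonNeumannAlgebra K} {ζ : ℕ → K}

theorem summ (h : Sq ζ) (x : BH K) : Summable fun k => ⟪ζ k, x (ζ k)⟫_ℂ := by
  refine Summable.of_norm_bounded (g := fun k => ‖x‖ * ‖ζ k‖ ^ 2) (Summable.mul_left _ h) ?_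
  intro k
  calc ‖⟪ζ k, x (ζ k)⟫_ℂ‖ ≤ ‖ζ k‖ * ‖x (ζ k)‖ := norm_inner_le_norm _ _
    _ ≤ ‖ζ k‖ * (‖x‖ * ‖ζ k‖) := by gcongr; exact x.le_opNorm _
    _ = ‖x‖ * ‖ζ k‖ ^ 2 := by ring

/-- the vector functional as a linear map -/
def vfl (h : Sq ζ) : BH K →ₗ[ℂ] ℂ where
  toFun x := vf ζ x
  map_add' x y := by
    unfold vf
    rw [← Summable.tsum_add (summ h x) (summ h y)]
    congr 1
    funext k
    rw [ContinuousLinearMap.add_apply, inner_add_right]
  map_smul' c x := by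
    unfold vf
    rw [RingHom.id_apply, smul_eq_mul, ← tsum_mul_left]
    congr 1
    funext k
    rw [ContinuousLinearMap.smul_apply, inner_smul_right]

theorem vfl_apply (h : Sq ζ) (x : BH K) : vfl h x = vf ζ x := rfl

theorem sum_one (h : TrS N ζ) : ∑' k, ‖ζ k‖ ^ 2 = 1 := by
  have h1 := h.one
  unfold vf at h1
  have h2 : (fun k => ⟪ζ k, (1 : BH K) (ζ k)⟫_ℂ) = fun k => ((‖ζ k‖ ^ 2 : ℝ) : ℂ) := by
    funext k
    rw [ContinuousLinearMap.one_apply, inner_self_eq_norm_sq_to_K]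
    push_cast
    rfl
  rw [h2, ← Complex.ofReal_tsum] at h1
  exact_mod_cast h1

theorem vf_bd (h : TrS N ζ) (x : BH K) : ‖vf ζ x‖ ≤ ‖x‖ := by
  unfold vf
  have h1 : Summable fun k => ‖x‖ * ‖ζ k‖ ^ 2 := Summable.mul_left _ h.sq
  have h2 : ∀ k, ‖⟪ζ k, x (ζ k)⟫_ℂ‖ ≤ ‖x‖ * ‖ζ k‖ ^ 2 := by
    intro k
    calc ‖⟪ζ k, x (ζ k)⟫_ℂ‖ ≤ ‖ζ k‖ * ‖x (ζ k)‖ := norm_inner_le_norm _ _
      _ ≤ ‖ζ k‖ * (‖x‖ * ‖ζ k‖) := by gcongr; exact x.le_opNorm _
      _ = ‖x‖ * ‖ζ k‖ ^ 2 := by ring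
  have h3 := tsum_of_norm_bounded h1.hasSum h2
  rw [tsum_mul_left, sum_one h, mul_one] at h3
  exact h3

/-- the trace of a projection -/
def tp (ζ : ℕ → K) (p : BH K) : ℝ := ∑' k, ‖p (ζ k)‖ ^ 2

theorem vf_pr {p : BH K} (hp : IsPr p) : vf ζ p = (tp ζ p : ℂ) := by
  unfold vf tp
  rw [Complex.ofReal_tsum]
  congr 1
  funext k
  have h1 : ⟪ζ k, p (ζ k)⟫_ℂ = ⟪p (ζ k), p (ζ k)⟫_ℂ := by
    conv_lhs => rw [← hp.2]
    conv_lhs => rw [ContinuousLinearMap.mul_apply]
    rw [← ContinuousLinearMap.adjoint_inner_left]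
    have : ContinuousLinearMap.adjoint p = p := by
      rw [← ContinuousLinearMap.star_eq_adjoint]; exact hp.1
    rw [this]
  rw [h1, inner_self_eq_norm_sq_to_K]
  push_cast
  rfl

theorem tp_nonneg (p : BH K) : 0 ≤ tp ζ p := tsum_nonneg fun _ => by positivity

theorem tp_pos (h : TrS N ζ) {p : BH K} (hp : IsPr p) (hN : p ∈ N) (h0 : p ≠ 0) :
    0 < tp ζ p := by
  rcases (tp_nonneg (ζ := ζ) p).lt_or_eq with h1 | h1
  · exact h1
  · exfalso
    apply h0
    apply h.fa p hN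
    rw [hp.1, hp.2, vf_pr hp, ← h1]
    simp

end trace

section vec

variable {𝓗 : Type} [NormedAddCommGroup 𝓗] [InnerProductSpace ℂ 𝓗] [CompleteSpace 𝓗]

/-- vector state on `B(K)` -/
def vs (T : Ten K 𝓗) (h : 𝓗) : BH K →ₗ[ℂ] ℂ where
  toFun x := ⟪h, T.L x h⟫_ℂ
  map_add' x y := by
    rw [map_add, ContinuousLinearMap.add_apply, inner_add_right]
  map_smul' c x := by
    rw [map_smul, ContinuousLinearMap.smul_apply, inner_smul_right, RingHom.id_apply, smul_eq_mul]

theorem vs_apply (T : Ten K 𝓗) (h : 𝓗) (x : BH K) : vs T h x = ⟪h, T.L x h⟫_ℂ := rfl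

theorem vs_bd (T : Ten K 𝓗) (hR : ∀ x, ‖T.L x‖ ≤ ‖x‖) {h : 𝓗} (h1 : ‖h‖ = 1) (x : BH K) :
    ‖vs T h x‖ ≤ ‖x‖ := by
  rw [vs_apply]
  calc ‖⟪h, T.L x h⟫_ℂ‖ ≤ ‖h‖ * ‖T.L x h‖ := norm_inner_le_norm _ _
    _ ≤ ‖h‖ * (‖T.L x‖ * ‖h‖) := by gcongr; exact (T.L x).le_opNorm _
    _ = ‖T.L x‖ := by rw [h1]; ring
    _ ≤ ‖x‖ := hR x

theorem vs_one (T : Ten K 𝓗) {h : 𝓗} (h1 : ‖h‖ = 1) : vs T h 1 = 1 := by
  rw [vs_apply, map_one, ContinuousLinearMap.one_apply, inner_self_eq_norm_sq_to_K, h1]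
  simp

theorem vs_star (T : Ten K 𝓗) (h : 𝓗) (x : BH K) :
    vs T h (star x * x) = ((‖T.L x h‖ ^ 2 : ℝ) : ℂ) := by
  rw [vs_apply, map_mul, map_star, ContinuousLinearMap.mul_apply,
    ContinuousLinearMap.star_eq_adjoint, ContinuousLinearMap.adjoint_inner_right,
    inner_self_eq_norm_sq_to_K]
  push_cast
  rfl

/-- almost invariance -/
theorem vs_inv (T : Ten K 𝓗) (hL : ∀ x, ‖T.L x‖ ≤ ‖x‖)
    (hR : ∀ x y, T.R (x * y) = T.R x * T.R y) (hRs : ∀ x, T.R (star x) = star (T.R x))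
    (hR1 : T.R 1 = 1) (hLR : ∀ x y, T.L x * T.R y = T.R y * T.L x) {h : 𝓗} (h1 : ‖h‖ = 1)
    {u : BH K} (hu : star u * u = 1) {ε : ℝ} (he : ‖T.L u (T.R u h) - h‖ ≤ ε) (x : BH K) :
    ‖vs T h (star u * x * u) - vs T h x‖ ≤ 2 * ε * ‖x‖ := by
  have hRu : star (T.R u) * T.R u = 1 := by rw [← hRs, ← hR, hu, hR1]
  have hLu : star (T.L u) * T.L u = 1 := by rw [← map_star, ← map_mul, hu, map_one]
  have iso : ∀ (S : BH 𝓗), star S * S = 1 → ∀ a b : 𝓗, ⟪S a, S b⟫_ℂ = ⟪a, b⟫_ℂ := by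
    intro S hS a b
    rw [← ContinuousLinearMap.adjoint_inner_right, ← ContinuousLinearMap.star_eq_adjoint,
      ← ContinuousLinearMap.mul_apply, hS, ContinuousLinearMap.one_apply]
  have ison : ∀ (S : BH 𝓗), star S * S = 1 → ∀ a : 𝓗, ‖S a‖ = ‖a‖ := by
    intro S hS a
    have := iso S hS a a
    rw [inner_self_eq_norm_sq_to_K, inner_self_eq_norm_sq_to_K] at this
    have h2 : ‖S a‖ ^ 2 = ‖a‖ ^ 2 := by exact_mod_cast this
    exact (sq_eq_sq₀ (norm_nonneg _) (norm_nonneg _)).1 h2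
  set k : 𝓗 := T.L u (T.R u h) with hk
  have hk1 : ‖k‖ = 1 := by rw [hk, ison _ hLu, ison _ hRu, h1]
  have e1 : vs T h (star u * x * u) = ⟪k, T.L x k⟫_ℂ := by
    rw [vs_apply, map_mul, map_mul, map_star]
    have e2 : k = T.R u (T.L u h) := by
      rw [hk, ← ContinuousLinearMap.mul_apply, hLR, ContinuousLinearMap.mul_apply]
    have e3 : T.L x k = T.R u (T.L x (T.L u h)) := by
      rw [e2, ← ContinuousLinearMap.mul_apply (T.L x), hLR, ContinuousLinearMap.mul_apply]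
    rw [e3, e2, iso _ hRu]
    rw [ContinuousLinearMap.mul_apply, ContinuousLinearMap.mul_apply,
      ContinuousLinearMap.star_eq_adjoint, ContinuousLinearMap.adjoint_inner_right]
  rw [e1, vs_apply]
  have e4 : ⟪k, T.L x k⟫_ℂ - ⟪h, T.L x h⟫_ℂ = ⟪k - h, T.L x k⟫_ℂ + ⟪h, T.L x (k - h)⟫_ℂ := by
    rw [map_sub, inner_sub_right, inner_sub_left]; ring
  rw [e4]
  have hxk : ∀ a : 𝓗, ‖T.L x a‖ ≤ ‖x‖ * ‖a‖ := fun a =>
    ((T.L x).le_opNorm a).trans (mul_le_mul_of_nonneg_right (hL x) (norm_nonneg _))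
  have he0 : 0 ≤ ε := (norm_nonneg _).trans he
  calc ‖⟪k - h, T.L x k⟫_ℂ + ⟪h, T.L x (k - h)⟫_ℂ‖
      ≤ ‖⟪k - h, T.L x k⟫_ℂ‖ + ‖⟪h, T.L x (k - h)⟫_ℂ‖ := norm_add_le _ _
    _ ≤ ‖k - h‖ * ‖T.L x k‖ + ‖h‖ * ‖T.L x (k - h)‖ :=
        add_le_add (norm_inner_le_norm _ _) (norm_inner_le_norm _ _)
    _ ≤ ε * (‖x‖ * 1) + 1 * (‖x‖ * ε) := by
        rw [h1]
        have := hxk k
        rw [hk1] at this
        have h5 : ‖T.L x (k - h)‖ ≤ ‖x‖ * ε :=
          (hxk _).trans (mul_le_mul_of_nonneg_left he (norm_nonneg _))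
        gcongr
    _ = 2 * ε * ‖x‖ := by ring

/-- a central state supported by `z` -/
theorem exists_gd (h1 : S_tenR) (T : Ten K 𝓗) (N : VonNeumannAlgebra K) (z : BH K)
    (hz : ∀ (ι : Type) [Fintype ι] (u : ι → BH K), UniF N u →
      ∀ ε : ℝ, 0 < ε →
      ∃ h : 𝓗, ‖h‖ = 1 ∧ T.L z h = h ∧ T.R z h = h ∧
        ∀ i, ‖T.L (u i) (T.R (u i) h) - h‖ ≤ ε) :
    ∃ φ : BH K →ₗ[ℂ] ℂ, Gd N φ ∧ φ z = 1 := by
  classical
  obtain ⟨-, -, -, -, hR, hRs, hR1, hLR, hL, -⟩ := h1 K 𝓗 T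
  let I := Finset (BH K) × ℕ
  let uu' : ∀ F : Finset (BH K), {x // x ∈ F} → BH K := fun F x =>
    if (x.1 ∈ N ∧ star x.1 * x.1 = 1 ∧ x.1 * star x.1 = 1) then x.1 else 1
  have huu : ∀ F, UniF N (uu' F) := by
    intro F x
    simp only [uu']
    split_ifs with h
    · exact h
    · exact ⟨one_mem N, by simp, by simp⟩
  have hex : ∀ i : I, ∃ h : 𝓗, ‖h‖ = 1 ∧ T.L z h = h ∧ T.R z h = h ∧
        ∀ j, ‖T.L (uu' i.1 j) (T.R (uu' i.1 j) h) - h‖ ≤ 1 / ((i.2 : ℝ) + 1) := fun i =>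
    hz _ (uu' i.1) (huu i.1) _ (by positivity)
  choose h hh1 hh2 hh3 hh4 using hex
  let U : Ultrafilter I := Ultrafilter.of (atTop : Filter I)
  have hU : (U : Filter I) ≤ atTop := Ultrafilter.of_le _
  obtain ⟨φ, hφb, hφt⟩ := exists_lim U (fun i => vs T (h i)) (fun i x => vs_bd T hL (hh1 i) x)
  refine ⟨φ, ⟨hφb, ?_, fun x => ?_, fun x => ?_, fun u hu hu1 hu2 x => ?_⟩, ?_⟩
  · have h1 : Tendsto (fun i => vs T (h i) 1) U (𝓝 1) := by
      simp only [fun i => vs_one T (hh1 i)]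
      exact tendsto_const_nhds
    exact tendsto_nhds_unique (hφt 1) h1
  · have h1 := (Complex.continuous_re.tendsto _).comp (hφt (star x * x))
    refine ge_of_tendsto' h1 fun i => ?_
    simp only [Function.comp]
    rw [vs_star, Complex.ofReal_re]
    positivity
  · have h1 := (Complex.continuous_im.tendsto _).comp (hφt (star x * x))
    have h2 : Tendsto (Complex.im ∘ fun i => vs T (h i) (star x * x)) U (𝓝 0) := by
      refine tendsto_const_nhds.congr fun i => ?_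
      simp only [Function.comp]
      rw [vs_star, Complex.ofReal_im]
    exact tendsto_nhds_unique h1 h2
  · have h3 : Tendsto (fun i => vs T (h i) (star u * x * u) - vs T (h i) x) U (𝓝 0) := by
      have hev : ∀ᶠ i : I in U, ‖vs T (h i) (star u * x * u) - vs T (h i) x‖ ≤
          2 * (1 / ((i.2 : ℝ) + 1)) * ‖x‖ := by
        have : ∀ᶠ i : I in atTop, ({u}, 0) ≤ i := eventually_ge_atTop _
        filter_upwards [hU this] with i hi
        have hmem : u ∈ i.1 := by
          have := hi.1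
          exact this (Finset.mem_singleton_self u)
        have h5 := hh4 i ⟨u, hmem⟩
        have h6 : uu' i.1 ⟨u, hmem⟩ = u := by
          simp only [uu']
          rw [if_pos ⟨hu, hu1, hu2⟩]
        rw [h6] at h5
        exact vs_inv T hL hR hRs hR1 hLR (hh1 i) hu1 h5 x
      have hlim : Tendsto (fun i : I => 2 * (1 / ((i.2 : ℝ) + 1)) * ‖x‖) U (𝓝 0) := by
        have h7 : Tendsto (fun i : I => (i.2 : ℕ)) atTop atTop := by
          rw [← prod_atTop_atTop_eq]
          exact tendsto_snd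
        have h8 : Tendsto (fun i : I => 1 / ((i.2 : ℝ) + 1)) atTop (𝓝 0) :=
          tendsto_one_div_add_atTop_nhds_zero_nat.comp h7
        have h9 := (h8.const_mul 2).mul_const ‖x‖
        simp only [mul_zero, zero_mul] at h9
        exact h9.mono_left hU
      exact squeeze_zero_norm' hev hlim
    have h4 := (hφt (star u * x * u)).sub (hφt x)
    have h5 := tendsto_nhds_unique h4 h3
    exact sub_eq_zero.1 h5
  · have h1 : Tendsto (fun i => vs T (h i) z) U (𝓝 1) := by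
      refine tendsto_const_nhds.congr fun i => ?_
      rw [vs_apply, hh2, inner_self_eq_norm_sq_to_K, hh1]
      simp
    exact tendsto_nhds_unique (hφt z) h1

end vec

section comb

variable {N : VonNeumannAlgebra K}

/-- convex combinations -/
theorem Gd.comb {φ ψ : BH K →ₗ[ℂ] ℂ} (h1 : Gd N φ) (h2 : Gd N ψ) {a b : ℝ} (ha : 0 ≤ a)
    (hb : 0 ≤ b) (hab : a + b = 1) : Gd N ((a : ℂ) • φ + (b : ℂ) • ψ) := by
  refine ⟨fun x => ?_, ?_, fun x => ?_, fun x => ?_, fun u hu hu1 hu2 x => ?_⟩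
  · simp only [LinearMap.add_apply, LinearMap.smul_apply, smul_eq_mul]
    calc ‖(a : ℂ) * φ x + (b : ℂ) * ψ x‖ ≤ ‖(a : ℂ) * φ x‖ + ‖(b : ℂ) * ψ x‖ := norm_add_le _ _
      _ = a * ‖φ x‖ + b * ‖ψ x‖ := by
          rw [norm_mul, norm_mul, Complex.norm_real, Complex.norm_real, Real.norm_of_nonneg ha,
            Real.norm_of_nonneg hb]
      _ ≤ a * ‖x‖ + b * ‖x‖ := by
          gcongr
          · exact h1.bd x
          · exact h2.bd x
      _ = ‖x‖ := by rw [← add_mul, hab, one_mul]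
  · simp only [LinearMap.add_apply, LinearMap.smul_apply, smul_eq_mul, h1.one, h2.one, mul_one]
    exact_mod_cast hab
  · simp only [LinearMap.add_apply, LinearMap.smul_apply, smul_eq_mul, Complex.add_re,
      Complex.re_ofReal_mul]
    have := h1.posr x
    have := h2.posr x
    positivity
  · simp only [LinearMap.add_apply, LinearMap.smul_apply, smul_eq_mul, Complex.add_im,
      Complex.im_ofReal_mul, h1.posi, h2.posi, mul_zero, add_zero]
  · simp only [LinearMap.add_apply, LinearMap.smul_apply, smul_eq_mul, h1.inv u hu hu1 hu2,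
      h2.inv u hu hu1 hu2]

/-- a good state carried by `s` vanishes on projections orthogonal to `s` -/
theorem Gd.zero {φ : BH K →ₗ[ℂ] ℂ} (h : Gd N φ) {s r : BH K} (hs : IsPr s) (hr : IsPr r)
    (h1 : φ s = 1) (hsr : s * r = 0) (hrs : r * s = 0) : φ r = 0 := by
  have e1 : φ r = φ (star r * r) := by rw [hr.1, hr.2]
  have e2 : star (1 - s - r) * (1 - s - r) = 1 - s - r := by
    rw [star_sub, star_sub, star_one, hs.1, hr.1]
    have : (1 - s - r) * (1 - s - r) = 1 - s - r - s + s * s + s * r - r + r * s + r * r := by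
      noncomm_ring
    rw [this, hs.2, hr.2, hsr, hrs]
    abel
  have e3 := h.posr (1 - s - r)
  rw [e2, map_sub, map_sub, h.one, h1, sub_self, zero_sub, Complex.neg_re] at e3
  have e4 := h.posr r
  have e5 := h.posi r
  rw [← e1] at e4 e5
  apply Complex.ext
  · rw [Complex.zero_re]; linarith
  · rw [Complex.zero_im]; exact e5

end comb

section cp

variable {N : VonNeumannAlgebra K}

theorem cp_mul {p q : BH K} (hp : IsCP N p) (hq : IsCP N q) : IsCP N (p * q) := by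
  have hc : p * q = q * p := hp.2.2 q hq.2.1
  refine ⟨⟨?_, ?_⟩, mul_mem hp.2.1 hq.2.1, fun a ha => ?_⟩
  · rw [star_mul, hp.1.1, hq.1.1, hc]
  · calc p * q * (p * q) = p * (q * p) * q := by noncomm_ring
      _ = p * (p * q) * q := by rw [hc]
      _ = (p * p) * (q * q) := by noncomm_ring
      _ = p * q := by rw [hp.1.2, hq.1.2]
  · rw [mul_assoc, hq.2.2 a ha, ← mul_assoc, hp.2.2 a ha, mul_assoc]

theorem cp_compl {p : BH K} (hp : IsCP N p) : IsCP N (1 - p) := by
  refine ⟨⟨?_, ?_⟩, sub_mem (one_mem N) hp.2.1, fun a ha => ?_⟩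
  · rw [star_sub, star_one, hp.1.1]
  · have : (1 - p) * (1 - p) = 1 - p - p + p * p := by noncomm_ring
    rw [this, hp.1.2]; abel
  · rw [sub_mul, mul_sub, one_mul, mul_one, hp.2.2 a ha]

theorem cp_one : IsCP N (1 : BH K) :=
  ⟨⟨star_one _, one_mul _⟩, one_mem N, fun a _ => by rw [one_mul, mul_one]⟩

/-- finitely many central projections -/
theorem exists_fin {ζ : ℕ → K} (ht : TrS N ζ)
    (hz : ∀ z, IsCP N z → z ≠ 0 → ∃ φ : BH K →ₗ[ℂ] ℂ, Gd N φ ∧ φ z = 1)
    (Q : Finset (BH K)) (hQ : ∀ q ∈ Q, IsCP N q) :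
    ∀ e, IsCP N e → e ≠ 0 → ∃ φ : BH K →ₗ[ℂ] ℂ, Gd N φ ∧ φ e = 1 ∧
      ∀ q ∈ Q, φ (q * e) = ((tp ζ (q * e) / tp ζ e : ℝ) : ℂ) := by
  classical
  induction Q using Finset.induction_on with
  | empty =>
    intro e he h0
    obtain ⟨φ, h1, h2⟩ := hz e he h0
    exact ⟨φ, h1, h2, fun q hq => absurd hq (by simp)⟩
  | insert q Q hq ih =>
    intro e he h0
    have hqc : IsCP N q := hQ q (Finset.mem_insert_self _ _)
    have ih' := ih (fun q' hq' => hQ q' (Finset.mem_insert_of_mem hq'))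
    have hte : 0 < tp ζ e := tp_pos ht he.1 he.2.1 h0
    set e1 : BH K := q * e with he1
    set e2 : BH K := (1 - q) * e with he2
    have c1 : IsCP N e1 := cp_mul hqc he
    have c2 : IsCP N e2 := cp_mul (cp_compl hqc) he
    have hsum : e1 + e2 = e := by rw [he1, he2]; noncomm_ring
    have hqq : q * q = q := hqc.1.2
    have ho12 : e1 * e2 = 0 := by
      rw [he1, he2]
      have : q * e * ((1 - q) * e) = q * (e * (1 - q)) * e := by noncomm_ring
      rw [this, he.2.2 (1 - q) (cp_compl hqc).2.1]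
      have : q * ((1 - q) * e) * e = (q - q * q) * e * e := by noncomm_ring
      rw [this, hqq]; simp
    have ho21 : e2 * e1 = 0 := by
      rw [c2.2.2 e1 c1.2.1]; exact ho12
    -- the trace is additive
    have htadd : ∀ p, IsCP N p → tp ζ (p * e) = tp ζ (p * e1) + tp ζ (p * e2) := by
      intro p hp
      have a1 := vf_pr (ζ := ζ) (cp_mul hp he).1
      have a2 := vf_pr (ζ := ζ) (cp_mul hp c1).1
      have a3 := vf_pr (ζ := ζ) (cp_mul hp c2).1
      have a4 : vf ζ (p * e) = vf ζ (p * e1) + vf ζ (p * e2) := by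
        rw [← vfl_apply ht.sq, ← vfl_apply ht.sq, ← vfl_apply ht.sq, ← map_add, ← mul_add, hsum]
      rw [a1, a2, a3] at a4
      exact_mod_cast a4
    have hte12 : tp ζ e = tp ζ e1 + tp ζ e2 := by
      have := htadd 1 cp_one
      simpa using this
    by_cases h1 : e1 = 0
    · obtain ⟨φ, g1, g2, g3⟩ := ih' e he h0
      refine ⟨φ, g1, g2, fun q' hq' => ?_⟩
      rcases Finset.mem_insert.1 hq' with rfl | hq'
      · rw [← he1, h1, map_zero]
        have : tp ζ (0 : BH K) = 0 := by simp [tp]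
        rw [this]; simp
      · exact g3 q' hq'
    by_cases h2 : e2 = 0
    · obtain ⟨φ, g1, g2, g3⟩ := ih' e he h0
      refine ⟨φ, g1, g2, fun q' hq' => ?_⟩
      rcases Finset.mem_insert.1 hq' with rfl | hq'
      · have : e1 = e := by rw [← hsum, h2, add_zero]
        rw [← he1, this, g2, div_self hte.ne']
        simp
      · exact g3 q' hq'
    obtain ⟨φ1, g11, g12, g13⟩ := ih' e1 c1 h1
    obtain ⟨φ2, g21, g22, g23⟩ := ih' e2 c2 h2
    have ht1 : 0 < tp ζ e1 := tp_pos ht c1.1 c1.2.1 h1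
    have ht2 : 0 < tp ζ e2 := tp_pos ht c2.1 c2.2.1 h2
    set a : ℝ := tp ζ e1 / tp ζ e with ha
    set b : ℝ := tp ζ e2 / tp ζ e with hb
    have hab : a + b = 1 := by
      rw [ha, hb, ← add_div, ← hte12, div_self hte.ne']
    have hG := Gd.comb g11 g21 (a := a) (b := b) (by positivity) (by positivity) hab
    -- values
    have z1 : ∀ p, IsCP N p → φ1 (p * e2) = 0 := by
      intro p hp
      refine Gd.zero g11 c1.1 (cp_mul hp c2).1 g12 ?_ ?_
      · rw [← mul_assoc, c1.2.2 p hp.2.1, mul_assoc, ho12, mul_zero]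
      · rw [mul_assoc, ho21, mul_zero]
    have z2 : ∀ p, IsCP N p → φ2 (p * e1) = 0 := by
      intro p hp
      refine Gd.zero g21 c2.1 (cp_mul hp c1).1 g22 ?_ ?_
      · rw [← mul_assoc, c2.2.2 p hp.2.1, mul_assoc, ho21, mul_zero]
      · rw [mul_assoc, ho12, mul_zero]
    have v1 : φ1 e2 = 0 := by simpa using z1 1 cp_one
    have v2 : φ2 e1 = 0 := by simpa using z2 1 cp_one
    refine ⟨_, hG, ?_, fun q' hq' => ?_⟩
    · simp only [LinearMap.add_apply, LinearMap.smul_apply, smul_eq_mul]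
      rw [← hsum, map_add, map_add, g12, g22, v1, v2]
      simp only [mul_one, add_zero, zero_add]
      exact_mod_cast hab
    · simp only [LinearMap.add_apply, LinearMap.smul_apply, smul_eq_mul]
      rcases Finset.mem_insert.1 hq' with rfl | hq'
      · rw [← he1, g12, v2]
        simp [ha]
      · have hqc' : IsCP N q' := hQ q' (Finset.mem_insert_of_mem hq')
        have hqe : q' * e = q' * e1 + q' * e2 := by rw [← mul_add, hsum]
        rw [htadd q' hqc', hqe, map_add, map_add, g13 q' hq', g23 q' hq', z1 q' hqc', z2 q' hqc']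
        rw [ha, hb]
        push_cast
        have k1 : (tp ζ e : ℂ) ≠ 0 := by exact_mod_cast hte.ne'
        have k2 : (tp ζ e1 : ℂ) ≠ 0 := by exact_mod_cast ht1.ne'
        have k3 : (tp ζ e2 : ℂ) ≠ 0 := by exact_mod_cast ht2.ne'
        field_simp
        ring

/-- all central projections -/
theorem exists_all {ζ : ℕ → K} (ht : TrS N ζ)
    (hz : ∀ z, IsCP N z → z ≠ 0 → ∃ φ : BH K →ₗ[ℂ] ℂ, Gd N φ ∧ φ z = 1) :
    ∃ φ : BH K →ₗ[ℂ] ℂ, Gd N φ ∧ ∀ q, IsCP N q → φ q = vf ζ q := by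
  classical
  have h10 : (1 : BH K) ≠ 0 := by
    intro h
    have h1 := ht.one
    rw [h] at h1
    unfold vf at h1
    simp at h1
  let I := Finset {q : BH K // IsCP N q}
  have hex : ∀ F : I, ∃ φ : BH K →ₗ[ℂ] ℂ, Gd N φ ∧ ∀ q ∈ F, φ q.1 = vf ζ q.1 := by
    intro F
    obtain ⟨φ, h1, h2, h3⟩ := exists_fin ht hz (F.image Subtype.val) (by
      intro q hq
      obtain ⟨q', -, rfl⟩ := Finset.mem_image.1 hq
      exact q'.2) 1 cp_one h10
    refine ⟨φ, h1, fun q hq => ?_⟩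
    have h4 := h3 q.1 (Finset.mem_image_of_mem _ hq)
    rw [mul_one] at h4
    rw [h4, vf_pr q.2.1]
    have h5 : tp ζ (1 : BH K) = 1 := by
      have := vf_pr (ζ := ζ) (cp_one (N := N)).1
      rw [ht.one] at this
      exact_mod_cast this.symm
    rw [h5, div_one]
  choose Φ hΦ1 hΦ2 using hex
  let U : Ultrafilter I := Ultrafilter.of (atTop : Filter I)
  have hU : (U : Filter I) ≤ atTop := Ultrafilter.of_le _
  obtain ⟨φ, hφb, hφt⟩ := exists_lim U Φ (fun i x => (hΦ1 i).bd x)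
  refine ⟨φ, Gd.lim U Φ φ hΦ1 hφt hφb, fun q hq => ?_⟩
  have h1 : Tendsto (fun i => Φ i q) U (𝓝 (vf ζ q)) := by
    refine tendsto_const_nhds.congr' ?_
    have : ∀ᶠ i : I in atTop, {⟨q, hq⟩} ≤ i := eventually_ge_atTop _
    filter_upwards [hU this] with i hi
    exact (hΦ2 i ⟨q, hq⟩ (hi (Finset.mem_singleton_self _))).symm
  exact tendsto_nhds_unique (hφt q) h1

end cp

/-- invariance under unitaries gives centrality -/
theorem Gd.central {N : VonNeumannAlgebra K} {φ : BH K →ₗ[ℂ] ℂ} (h : Gd N φ) :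
    ∀ m ∈ N, ∀ x, φ (m * x) = φ (x * m) := by
  intro m hm x
  have hspan : (⟨m, hm⟩ : N.toStarSubalgebra) ∈
      Submodule.span ℂ ((unitary N.toStarSubalgebra : Submonoid N.toStarSubalgebra) :
        Set N.toStarSubalgebra) := by
    rw [CStarAlgebra.span_unitary]
    exact Submodule.mem_top
  have key : ∀ y : N.toStarSubalgebra, y ∈
      Submodule.span ℂ ((unitary N.toStarSubalgebra : Submonoid N.toStarSubalgebra) :
        Set N.toStarSubalgebra) → φ ((y : BH K) * x) = φ (x * (y : BH K)) := by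
    intro y hy
    induction hy using Submodule.span_induction with
    | mem y hy =>
      have h1 : star (y : BH K) * (y : BH K) = 1 := by
        have := (Unitary.mem_iff.1 hy).1
        have h2 := congrArg (Subtype.val) this
        simpa using h2
      have h2 : (y : BH K) * star (y : BH K) = 1 := by
        have := (Unitary.mem_iff.1 hy).2
        have h2 := congrArg (Subtype.val) this
        simpa using h2
      have h3 := h.inv (y : BH K) y.2 h1 h2 ((y : BH K) * x)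
      rw [← h3]
      congr 1
      rw [← mul_assoc, h1, one_mul]
    | zero => simp
    | add a b _ _ ha hb =>
      push_cast
      rw [add_mul, mul_add, map_add, map_add, ha, hb]
    | smul c a _ ha =>
      push_cast
      rw [smul_mul_assoc, mul_smul_comm, map_smul, map_smul, ha]
  exact key _ hspan

theorem t_cst (h1 : S_tenR) (h2 : V_dix.{0}) (h3 : Z_span) : S_cst := by
  intro K 𝓗 _ _ _ _ _ _ T N ζ ht hz
  obtain ⟨φ, hg, hq⟩ := exists_all ht (fun z hz1 hz0 => exists_gd h1 T N z (hz z hz1 hz0))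
  have hcen := hg.central
  have hpos : ∀ x, 0 ≤ φ (star x * x) := fun x =>
    Complex.nonneg_iff.2 ⟨hg.posr x, (hg.posi x).symm⟩
  refine ⟨φ, ⟨hg.one, hpos⟩, hcen, ?_⟩
  have hdiff : ∀ x : BH K, ‖φ x - vf ζ x‖ ≤ 2 * ‖x‖ := by
    intro x
    calc ‖φ x - vf ζ x‖ ≤ ‖φ x‖ + ‖vf ζ x‖ := norm_sub_le _ _
      _ ≤ ‖x‖ + ‖x‖ := add_le_add (hg.bd x) (vf_bd ht x)
      _ = 2 * ‖x‖ := by ring
  let δ : BH K →ₗ[ℂ] ℂ := φ - vfl ht.sq
  have hδ : ∀ x, δ x = φ x - vf ζ x := fun x => rfl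
  have hδb : ∀ x, ‖δ x‖ ≤ 2 * ‖x‖ := hdiff
  have hδq : ∀ q, IsCP N q → δ q = 0 := fun q hq' => by rw [hδ, hq q hq', sub_self]
  -- the centre
  have hδc : ∀ c, IsCen N c → δ c = 0 := by
    intro c hc
    by_contra hne
    have hpos' : 0 < ‖δ c‖ := norm_pos_iff.2 hne
    obtain ⟨n, a, p, hp, hle⟩ := h3 K N c hc (‖δ c‖ / 4) (by positivity)
    have e1 : δ c = δ (c - ∑ k, a k • p k) := by
      rw [map_sub, map_sum]
      have : ∑ k, δ (a k • p k) = 0 := Finset.sum_eq_zero fun k _ => by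
        rw [map_smul, hδq _ (hp k), smul_zero]
      rw [this, sub_zero]
    have e2 := hδb (c - ∑ k, a k • p k)
    rw [← e1] at e2
    linarith
  -- self-adjoint elements
  have hδs : ∀ m ∈ N, IsSelfAdjoint m → δ m = 0 := by
    intro m hm hs
    by_contra hne
    have hpos' : 0 < ‖δ m‖ := norm_pos_iff.2 hne
    obtain ⟨n, g, z, hgk, hz1, -, hle⟩ := h2 K N m hm hs (‖δ m‖ / 4) (by positivity)
    have e0 : ∀ k, δ (g k * m * star (g k)) = δ m := by
      intro k
      obtain ⟨a1, a2, a3⟩ := hgk k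
      have b1 : φ (g k * m * star (g k)) = φ m := by
        rw [mul_assoc, hcen (g k) a1, mul_assoc, a3, mul_one]
      have b2 : vf ζ (g k * m * star (g k)) = vf ζ m := by
        rw [mul_assoc, ht.tr (g k) a1 _ (mul_mem hm (star_mem a1)), mul_assoc, a3, mul_one]
      rw [hδ, hδ, b1, b2]
    have e1 : δ (((n + 1 : ℂ))⁻¹ • ∑ k, g k * m * star (g k)) = δ m := by
      rw [map_smul, map_sum, Finset.sum_congr rfl (fun k _ => e0 k), Finset.sum_const,
        Finset.card_univ, Fintype.card_fin, nsmul_eq_mul, smul_eq_mul]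
      push_cast
      have : (n + 1 : ℂ) ≠ 0 := by exact_mod_cast Nat.succ_ne_zero n
      field_simp
    have e2 : δ m = δ (((n + 1 : ℂ))⁻¹ • ∑ k, g k * m * star (g k) - z) := by
      rw [map_sub, e1, hδc z hz1, sub_zero]
    have e3 := hδb (((n + 1 : ℂ))⁻¹ • ∑ k, g k * m * star (g k) - z)
    rw [← e2] at e3
    linarith
  intro m hm
  have hfin : δ m = 0 := by
    have s1 : IsSelfAdjoint (m + star m) := by
      rw [isSelfAdjoint_iff, star_add, star_star, add_comm]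
    have s2 : IsSelfAdjoint (Complex.I • (m - star m)) := by
      rw [isSelfAdjoint_iff, star_smul, star_sub, star_star]
      have : star Complex.I = -Complex.I := Complex.conj_I
      rw [this, neg_smul, ← smul_neg, neg_sub]
    have m1 : m + star m ∈ N := add_mem hm (star_mem hm)
    have m2 : Complex.I • (m - star m) ∈ N := by
      have := SMulMemClass.smul_mem (s := N.toStarSubalgebra) Complex.I
        (show m - star m ∈ N.toStarSubalgebra from sub_mem hm (star_mem hm))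
      exact this
    have k1 := hδs _ m1 s1
    have k2 := hδs _ m2 s2
    rw [map_smul, smul_eq_mul] at k2
    have k3 : δ (m - star m) = 0 := (mul_eq_zero.1 k2).resolve_left Complex.I_ne_zero
    rw [map_add] at k1
    rw [map_sub] at k3
    have : 2 * δ m = 0 := by linear_combination k1 + k3
    exact (mul_eq_zero.1 this).resolve_left two_ne_zero
  rw [hδ] at hfin
  exact sub_eq_zero.1 hfin

end H722.BPc
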